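import Pool.Agent.Helper54.CG.NKGoals

/-! # NK-B: derivative of expressions and the mean value inequality on a polydisc -/

namespace Pool.Agent.Helper45.CG.NKB

open Pool.Agent.Helper54.CG.NK
open Set

theorem eval_addS (v : ℕ → ℂ) (e f : Ex) : (addS e f).eval v = e.eval v + f.eval v := by
  unfold addS
  split
  · simp [Ex.eval]
  · simp [Ex.eval]
  · simp [Ex.eval]

theorem eval_mulS (v : ℕ → ℂ) (e f : Ex) : (mulS e f).eval v = e.eval v * f.eval v := by
  unfold mulS
  split
  · simp [Ex.eval]
  · simp [Ex.eval]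
  · simp [Ex.eval]
  · simp [Ex.eval]
  · simp [Ex.eval]

theorem eval_powS (v : ℕ → ℂ) (e : Ex) (n : ℕ) : (powS e n).eval v = e.eval v ^ n := by
  unfold powS
  split
  · simp [Ex.eval]
  · simp
  · simp [Ex.eval]
  · simp [Ex.eval]

variable {N : ℕ} {v w : ℕ → ℂ}

theorem hasDeriv (hvw : ∀ i, N ≤ i → v i = w i) (t : ℝ) (e : Ex) :
    HasDerivAt (fun t : ℝ => e.eval fun i => w i + (t : ℂ) * (v i - w i))
      (∑ j ∈ Finset.range N, (der j e).eval (fun i => w i + (t : ℂ) * (v i - w i)) *
        (v j - w j)) t := by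
  induction e with
  | k a b => simpa [Ex.eval, der] using hasDerivAt_const t ((a : ℂ) + (b : ℂ) * Complex.I)
  | x i =>
    have h1 : HasDerivAt (fun t : ℝ => w i + (t : ℂ) * (v i - w i)) (1 * (v i - w i)) t :=
      ((Complex.ofRealCLM.hasDerivAt (x := t)).mul_const (v i - w i)).const_add (w i)
    have h2 : (∑ j ∈ Finset.range N, (der j (Ex.x i)).eval
        (fun i => w i + (t : ℂ) * (v i - w i)) * (v j - w j)) = 1 * (v i - w i) := by
      have h3 : ∀ j ∈ Finset.range N, (der j (Ex.x i)).eval
          (fun i => w i + (t : ℂ) * (v i - w i)) * (v j - w j) =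
          if i = j then v i - w i else 0 := by
        intro j _
        unfold der
        split_ifs with h
        · subst h
          simp [Ex.eval]
        · simp [Ex.eval]
      rw [Finset.sum_congr rfl h3, Finset.sum_ite_eq, one_mul]
      split_ifs with h
      · rfl
      · rw [Finset.mem_range, not_lt] at h
        rw [hvw i h, sub_self]
    rw [h2]
    exact h1
  | add e f he hf =>
    have h1 := he.add hf
    rw [← Finset.sum_add_distrib] at h1
    refine h1.congr_deriv (Finset.sum_congr rfl fun j _ => ?_)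
    rw [der, eval_addS]
    ring
  | mul e f he hf =>
    have h1 := he.mul hf
    rw [Finset.sum_mul, Finset.mul_sum, ← Finset.sum_add_distrib] at h1
    refine h1.congr_deriv (Finset.sum_congr rfl fun j _ => ?_)
    rw [der, eval_addS, eval_mulS, eval_mulS]
    ring
  | pow e n he =>
    cases n with
    | zero => simpa [Ex.eval, der] using hasDerivAt_const t (1 : ℂ)
    | succ n =>
      have h1 := he.pow (n + 1)
      rw [Finset.mul_sum] at h1
      refine h1.congr_deriv (Finset.sum_congr rfl fun j _ => ?_)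
      rw [der, eval_mulS, eval_mulS, eval_powS]
      simp only [Ex.eval, Nat.add_sub_cancel]
      push_cast
      ring

theorem t : S_B := by
  intro N e c ρ v w m r hv hw hvc hwc hd
  have hvw : ∀ i, N ≤ i → v i = w i := fun i hi => (hvc i hi).trans (hwc i hi).symm
  set C : ℝ := ∑ j ∈ Finset.range N, r j * ‖v j - w j‖ with hC
  have hf : ∀ t ∈ Icc (0 : ℝ) 1, HasDerivWithinAt
      (fun t : ℝ => (e.eval fun i => w i + (t : ℂ) * (v i - w i)) -
        (t : ℂ) * ∑ j ∈ Finset.range N, m j * (v j - w j))
      ((∑ j ∈ Finset.range N, (der j e).eval (fun i => w i + (t : ℂ) * (v i - w i)) *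
        (v j - w j)) - 1 * ∑ j ∈ Finset.range N, m j * (v j - w j)) (Icc 0 1) t := by
    intro t _
    exact ((hasDeriv hvw t e).sub
      ((Complex.ofRealCLM.hasDerivAt (x := t)).mul_const _)).hasDerivWithinAt
  have hb : ∀ t ∈ Ico (0 : ℝ) 1, ‖(∑ j ∈ Finset.range N,
      (der j e).eval (fun i => w i + (t : ℂ) * (v i - w i)) * (v j - w j)) -
      1 * ∑ j ∈ Finset.range N, m j * (v j - w j)‖ ≤ C := by
    intro t ht
    have h0 : ∀ i, i < N → ‖(w i + (t : ℂ) * (v i - w i)) - c i‖ ≤ ρ := by
      intro i hi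
      have e1 : (w i + (t : ℂ) * (v i - w i)) - c i =
          ((1 - t : ℝ) : ℂ) * (w i - c i) + (t : ℂ) * (v i - c i) := by
        push_cast
        ring
      rw [e1]
      refine (norm_add_le _ _).trans ?_
      rw [norm_mul, norm_mul, Complex.norm_real, Complex.norm_real,
        Real.norm_of_nonneg (by linarith [ht.2]), Real.norm_of_nonneg ht.1]
      have h1 := mul_le_mul_of_nonneg_left (hw i hi) (show (0 : ℝ) ≤ 1 - t by linarith [ht.2])
      have h2 := mul_le_mul_of_nonneg_left (hv i hi) ht.1
      nlinarith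
    have h1 : ∀ i, N ≤ i → w i + (t : ℂ) * (v i - w i) = c i := by
      intro i hi
      rw [hvw i hi, sub_self, mul_zero, add_zero, hwc i hi]
    have h2 := hd (fun i => w i + (t : ℂ) * (v i - w i)) h0 h1
    rw [one_mul, ← Finset.sum_sub_distrib]
    refine (norm_sum_le _ _).trans (Finset.sum_le_sum fun j hj => ?_)
    rw [← sub_mul, norm_mul]
    exact mul_le_mul_of_nonneg_right (h2 j (Finset.mem_range.1 hj)) (norm_nonneg _)
  have key := norm_image_sub_le_of_norm_deriv_le_segment_01' hf hb
  have e1 : (fun i => w i + ((1 : ℝ) : ℂ) * (v i - w i)) = v := by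
    funext i
    push_cast
    ring
  have e0 : (fun i => w i + ((0 : ℝ) : ℂ) * (v i - w i)) = w := by
    funext i
    push_cast
    ring
  simp only [e1, e0] at key
  refine le_trans (le_of_eq ?_) key
  congr 1
  push_cast
  ring

end Pool.Agent.Helper45.CG.NKB
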